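import Mathlib
import Pool.Agent.H902.CB.Orbit

set_option autoImplicit false

/-!
# All classes in the planes spanned by the canonical class and a pencil of rational curves

Let `X` be the blow-up of the projective plane over a field `K` of characteristic zero at `n ≥ 9`
generic points (the `2 n` affine coordinates are algebraically independent over `ℚ`). Let `F` be a
class in the orbit of the classes `H - E p` under quadratic transformations (the class of a pencil of
rational curves without base points).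

For all `x, y ≥ 0` the class `D = x F - y K_X` satisfies `h⁰ (D) h¹ (D) = 0`:
`h⁰ (D) = max (0, χ (D))`, `χ (D) = (2 y + 1) x + 1 - (n - 9) y (y + 1) / 2`. So
`h¹ (X, O (C)) = 0` for every prime divisor `C` with a class of this kind, and for `n ≥ 10` the
classes `(n - 9) F - 4 K_X` of square zero are not semi-effective. For `n = 10` and `F = H - E 1`
this is the class `13 H - 5 E 1 - 4 E 2 - ... - 4 E 10`.

More generally (`1`) the system of the curves of degree `d` with one point of multiplicity `d - 2 m` and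
`n - 1` points of multiplicity `m`, and its images under quadratic transformations, have the
expected dimension, for all `d ≥ 2 m ≥ 0`.

Idea: in fibre degree `2 m` the conditions of `4`, `6`, `7` (or `9`) points of multiplicity `m` are
exactly tiled by lattice triangles in a strip of `2 m + 1` rows. The sets of points are glued along a
fibre (`Pool.Agent.H902.CB.glue`): the part of a fibre which is left over by the first set is filled by
the second one. The reason is a Wronskian argument (`Pool.Agent.H902.CB.Emp_top`): the restrictions to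
a fibre of the sections of a system of dimension `t` contain, at almost all points of the fibre, no
section which vanishes to order `t`.
-/

namespace Pool.Agent.Results.MP_0dccba_ag.ConicBundlePlanes

open MvPolynomial

/-- The homogeneous ideal of the point `(p 0 : p 1 : 1)`. -/
noncomputable def pt {K : Type} [Field K] (p : Fin 2 → K) : Ideal (MvPolynomial (Fin 3) K) :=
  Ideal.span {X 0 - C (p 0) * X 2, X 1 - C (p 1) * X 2}

/-- The space of the forms of degree `d` with multiplicity at least `w i` at `P i` for all `i`: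
the sections of `O (d H - ∑ w i E i)` on the blow-up. -/
noncomputable def sys {K : Type} [Field K] {n : ℕ} (P : Fin n → Fin 2 → K) (d : ℕ)
    (w : Fin n → ℕ) : Submodule K (MvPolynomial (Fin 3) K) :=
  homogeneousSubmodule (Fin 3) K d ⊓ Submodule.restrictScalars K (⨅ i, pt (P i) ^ (w i))

/-- The Euler characteristic of `O (d H - ∑ w i E i)`. -/
def euler {n : ℕ} (d : ℕ) (w : Fin n → ℕ) : ℤ :=
  ((d + 2).choose 2 : ℤ) - ∑ i, ((w i + 1).choose 2 : ℤ)

/-- The form `G` defines an irreducible curve of degree `d` with multiplicity exactly `w i` at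
`P i` for all `i`: its strict transform is a prime divisor of class `d H - ∑ w i E i`. -/
structure PrimeDivisor {K : Type} [Field K] {n : ℕ} (P : Fin n → Fin 2 → K)
    (G : MvPolynomial (Fin 3) K) (d : ℕ) (w : Fin n → ℕ) : Prop where
  irreducible : Irreducible G
  homogeneous : G.IsHomogeneous d
  mult : ∀ i, G ∈ pt (P i) ^ (w i) ∧ G ∉ pt (P i) ^ (w i + 1)

/-- One quadratic (Cremona) transformation of classes: the reflection in the class
`H - E i - E j - E k`. -/
def Quadratic {n : ℕ} (a b : ℕ × (Fin n → ℕ)) : Prop :=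
  ∃ i j k : Fin n, i ≠ j ∧ i ≠ k ∧ j ≠ k ∧
    (b.1 : ℤ) = 2 * a.1 - a.2 i - a.2 j - a.2 k ∧
    (b.2 i : ℤ) = a.1 - a.2 j - a.2 k ∧
    (b.2 j : ℤ) = a.1 - a.2 i - a.2 k ∧
    (b.2 k : ℤ) = a.1 - a.2 i - a.2 j ∧
    ∀ l, l ≠ i → l ≠ j → l ≠ k → b.2 l = a.2 l

/-- Finitely many quadratic transformations carry the class `a` to `b`. -/
def Carries {n : ℕ} (a b : ℕ × (Fin n → ℕ)) : Prop := Relation.ReflTransGen Quadratic a b

/-- `e H - ∑ u i E i` is the class of a pencil of rational curves: an image of a class `H - E p`. -/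
def Pencil {n : ℕ} (e : ℕ) (u : Fin n → ℕ) : Prop :=
  ∃ p : Fin n, Carries (1, fun i => if i = p then 1 else 0) (e, u)

theorem sys_eq {K : Type} [Field K] {n : ℕ} (P : Fin n → Fin 2 → K) (d : ℕ) (w : Fin n → ℕ) :
    sys P d w = Pool.Agent.TH167.SHDefs.sys P d w := rfl

theorem carries_iff {n : ℕ} {a b : ℕ × (Fin n → ℕ)} (h : Carries a b) :
    Relation.ReflTransGen Pool.Agent.TH167.SHDefs.Quadratic a b := h

theorem euler_eq {n : ℕ} (d : ℕ) (w : Fin n → ℕ) : euler d w = Pool.Agent.TH167.SH.chi d w := rfl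

/-- the images of the basic classes -/
theorem main {K : Type} [Field K] [CharZero K] {n : ℕ} (hn : 9 ≤ n) {P : Fin n → Fin 2 → K}
    (hP : AlgebraicIndependent ℚ (fun q : Fin n × Fin 2 => P q.1 q.2)) {p : Fin n} {m d : ℕ}
    (hd : 2 * m ≤ d) {e : ℕ} {u : Fin n → ℕ}
    (h : Carries (d, fun i => if i = p then d - 2 * m else m) (e, u)) :
    (Module.finrank K (sys P e u) : ℤ) = max 0 (euler e u) ∧
      euler e u = (2 * m + 1) * ((d : ℤ) + 1 - m) - ((n : ℤ) - 1) * ((m + 1).choose 2 : ℕ) := by
  have h1 := Pool.Agent.H902.CB.dim_chain hP (carries_iff h)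
  have h2 := Pool.Agent.H902.CB.chi_chain (carries_iff h)
  have h3 := Pool.Agent.H902.CB.expDim_vp hn hP p hd
  unfold Pool.Agent.H932R3.ExpDim at h3
  have h4 := Pool.Agent.H902.CB.chi_vp p hd
  simp only at h1 h2
  have h5 : euler e u = (2 * m + 1) * ((d : ℤ) + 1 - m) - ((n : ℤ) - 1) * ((m + 1).choose 2 : ℕ) := by
    rw [euler_eq, h2]
    exact h4
  refine ⟨?_, h5⟩
  have h6 : Module.finrank K (sys P e u) =
      (d + 2).choose 2 - ∑ i, (Pool.Agent.H902.CB.vp p m d i + 1).choose 2 := by
    rw [sys_eq, h1]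
    exact h3
  have h7 : euler e u = ((d + 2).choose 2 : ℤ) -
      ∑ i, ((Pool.Agent.H902.CB.vp p m d i + 1).choose 2 : ℤ) := by
    rw [euler_eq, h2]
    rfl
  rw [h6, h7]
  have h8 : (∑ i, ((Pool.Agent.H902.CB.vp p m d i + 1).choose 2 : ℤ)) =
      ((∑ i, (Pool.Agent.H902.CB.vp p m d i + 1).choose 2 : ℕ) : ℤ) := by push_cast; rfl
  rw [h8]
  omega

/-- a quadratic transformation of `F` and of `x F - y K` -/
theorem quad_pencil {n : ℕ} (x y : ℕ) {a b : ℕ × (Fin n → ℕ)} (h : Quadratic a b) :
    Quadratic (x * a.1 + 3 * y, fun i => x * a.2 i + y) (x * b.1 + 3 * y, fun i => x * b.2 i + y) := by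
  obtain ⟨i, j, k, hij, hik, hjk, h1, h2, h3, h4, h5⟩ := h
  refine ⟨i, j, k, hij, hik, hjk, ?_, ?_, ?_, ?_, ?_⟩
  · push_cast
    rw [h1]
    ring
  · push_cast
    rw [h2]
    ring
  · push_cast
    rw [h3]
    ring
  · push_cast
    rw [h4]
    ring
  · intro l l1 l2 l3
    simp only
    rw [h5 l l1 l2 l3]

theorem carries_pencil {n : ℕ} (x y : ℕ) {a b : ℕ × (Fin n → ℕ)} (h : Carries a b) :
    Carries (x * a.1 + 3 * y, fun i => x * a.2 i + y) (x * b.1 + 3 * y, fun i => x * b.2 i + y) := by
  induction h with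
  | refl => exact Relation.ReflTransGen.refl
  | tail _ h ih => exact Relation.ReflTransGen.tail ih (quad_pencil x y h)

/-- the classes `x F - y K` -/
theorem plane {K : Type} [Field K] [CharZero K] {n : ℕ} (hn : 9 ≤ n) {P : Fin n → Fin 2 → K}
    (hP : AlgebraicIndependent ℚ (fun q : Fin n × Fin 2 => P q.1 q.2)) {e : ℕ} {u : Fin n → ℕ}
    (h : Pencil e u) (x y : ℕ) :
    (Module.finrank K (sys P (x * e + 3 * y) (fun i => x * u i + y)) : ℤ) =
        max 0 (euler (x * e + 3 * y) (fun i => x * u i + y)) ∧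
      euler (x * e + 3 * y) (fun i => x * u i + y) =
        (2 * y + 1) * x + 1 - ((n : ℤ) - 9) * ((y + 1).choose 2 : ℕ) := by
  obtain ⟨p, hp⟩ := h
  have h1 := carries_pencil x y hp
  simp only at h1
  have h2 : (fun i : Fin n => x * (if i = p then 1 else 0) + y) =
      fun i => if i = p then (x * 1 + 3 * y) - 2 * y else y := by
    funext i
    split_ifs <;> omega
  rw [h2] at h1
  obtain ⟨h3, h4⟩ := main hn hP (by omega) h1
  refine ⟨h3, ?_⟩
  rw [h4]
  have h5 := Pool.Agent.H902.CB.two_choose y
  push_cast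
  have h6 : (2 : ℤ) * ((y + 1).choose 2 : ℕ) = y * (y + 1) := h5
  linear_combination (-4 : ℤ) * h6

theorem result (n : ℕ) (hn : 9 ≤ n) (K : Type) [Field K] [CharZero K] (P : Fin n → Fin 2 → K)
    (hP : AlgebraicIndependent ℚ (fun q : Fin n × Fin 2 => P q.1 q.2)) :
    -- (1) one point of multiplicity `d - 2 m`, the others of multiplicity `m`, and their images
    (∀ (p : Fin n) (m d e : ℕ) (u : Fin n → ℕ), 2 * m ≤ d →
      Carries (d, fun i => if i = p then d - 2 * m else m) (e, u) →
      (Module.finrank K (sys P e u) : ℤ) = max 0 (euler e u) ∧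
      euler e u = (2 * m + 1) * ((d : ℤ) + 1 - m) - ((n : ℤ) - 1) * ((m + 1).choose 2 : ℕ) ∧
      ∀ G, PrimeDivisor P G e u → (Module.finrank K (sys P e u) : ℤ) = euler e u) ∧
    -- (2) the classes `x F - y K` for all pencils `F` of rational curves
    (∀ (e : ℕ) (u : Fin n → ℕ), Pencil e u → ∀ x y : ℕ,
      (Module.finrank K (sys P (x * e + 3 * y) (fun i => x * u i + y)) : ℤ) =
        max 0 (euler (x * e + 3 * y) (fun i => x * u i + y)) ∧
      euler (x * e + 3 * y) (fun i => x * u i + y) =
        (2 * y + 1) * x + 1 - ((n : ℤ) - 9) * ((y + 1).choose 2 : ℕ)) ∧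
    -- (3) the classes `(n - 9) F - 4 K` of square zero are not semi-effective
    (10 ≤ n → ∀ (e : ℕ) (u : Fin n → ℕ), Pencil e u → ∀ t : ℕ, 1 ≤ t →
      sys P (t * ((n - 9) * e + 12)) (fun i => t * ((n - 9) * u i + 4)) = ⊥) := by
  refine ⟨?_, ?_, ?_⟩
  · intro p m d e u hd h
    obtain ⟨h1, h2⟩ := main hn hP hd h
    refine ⟨h1, h2, fun G hG => ?_⟩
    have hfin : Module.Finite K ↥(MvPolynomial.homogeneousSubmodule (Fin 3) K e) :=
      Module.Finite.iff_fg.2 (MvPolynomial.homogeneousSubmodule_fg _ _ e)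
    have hfin' : FiniteDimensional K ↥(sys P e u) :=
      Submodule.finiteDimensional_of_le (S₁ := sys P e u)
        (S₂ := MvPolynomial.homogeneousSubmodule (Fin 3) K e) inf_le_left
    have hmem : G ∈ sys P e u := by
      refine ⟨(MvPolynomial.mem_homogeneousSubmodule _ _).2 hG.homogeneous, ?_⟩
      rw [SetLike.mem_coe, Submodule.restrictScalars_mem, Ideal.mem_iInf]
      exact fun i => (hG.mult i).1
    have h3 : 0 < Module.finrank K ↥(sys P e u) := by
      rw [Module.finrank_pos_iff]
      refine ⟨⟨⟨G, hmem⟩, 0, fun h0 => ?_⟩⟩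
      exact hG.irreducible.ne_zero (congrArg Subtype.val h0)
    rw [h1]
    have h4 : (0 : ℤ) < Module.finrank K ↥(sys P e u) := by exact_mod_cast h3
    rw [h1] at h4
    rcases le_total 0 (euler e u) with h5 | h5
    · exact max_eq_right h5
    · rw [max_eq_left h5] at h4
      exact absurd h4 (lt_irrefl _)
  · intro e u h x y
    exact plane hn hP h x y
  · intro hn10 e u h t ht
    obtain ⟨h1, h2⟩ := plane hn hP h (t * (n - 9)) (4 * t)
    have e1 : t * (n - 9) * e + 3 * (4 * t) = t * ((n - 9) * e + 12) := by ring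
    have e2 : (fun i => t * (n - 9) * u i + 4 * t) = fun i => t * ((n - 9) * u i + 4) := by
      funext i
      ring
    rw [e1, e2] at h1 h2
    have hfin : Module.Finite K
        ↥(MvPolynomial.homogeneousSubmodule (Fin 3) K (t * ((n - 9) * e + 12))) :=
      Module.Finite.iff_fg.2 (MvPolynomial.homogeneousSubmodule_fg _ _ _)
    have hfin' : FiniteDimensional K
        ↥(sys P (t * ((n - 9) * e + 12)) (fun i => t * ((n - 9) * u i + 4))) :=
      Submodule.finiteDimensional_of_le
        (S₂ := MvPolynomial.homogeneousSubmodule (Fin 3) K (t * ((n - 9) * e + 12))) inf_le_left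
    rw [← Submodule.finrank_eq_zero (R := K)]
    have h3 : euler (t * ((n - 9) * e + 12)) (fun i => t * ((n - 9) * u i + 4)) ≤ 0 := by
      rw [h2]
      have h5 := Pool.Agent.H902.CB.two_choose (4 * t)
      have h6 : ((n - 9 : ℕ) : ℤ) = (n : ℤ) - 9 := by
        push_cast [Nat.cast_sub hn]
        ring
      have h7 : (2 : ℤ) * ((4 * t + 1).choose 2 : ℕ) = (4 * t : ℕ) * ((4 * t : ℕ) + 1) := by
        exact_mod_cast h5
      push_cast at h7 ⊢
      rw [h6]
      have h8 : ((4 * t + 1).choose 2 : ℤ) = 2 * t * (4 * t + 1) := by linarith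
      rw [h8]
      have h9 : (1 : ℤ) ≤ (n : ℤ) - 9 := by
        have : (10 : ℤ) ≤ n := by exact_mod_cast hn10
        linarith
      have h10 : (1 : ℤ) ≤ t := by exact_mod_cast ht
      nlinarith
    rw [max_eq_left h3] at h1
    exact_mod_cast h1

end Pool.Agent.Results.MP_0dccba_ag.ConicBundlePlanes
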