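import Mathlib
import Pool.Agent.H879.PC.Fin

set_option autoImplicit false

/-!
# Prime divisors and all classes in every characteristic: arbitrary spread of the multiplicities

Let `k` be an algebraically closed field of any characteristic and let `P 1, …, P n`, `n ≥ 10`, be
generic points of the plane. The class `(d; w)` is ABOVE ITS WEIGHT (`Above`) if
`2 Ω + 3 √κ ≤ 2 d + 9`, where `κ ≥ 10` bounds the number of the multiplicities `≥ 2` and `Ω` is
their weight: `Ω = ∑_{t ≥ 0} ρ(N_t)`, `N_t` the number of the `w i > t` with `w i ≥ 2`,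
`ρ(N) = max (min N 3) √N`. For decreasing multiplicities (part (3))
`Ω = w 1 + w 2 + w 3 + ∑_{k ≥ 10} (√k - √(k - 1)) w k`, so the condition is
`d ≥ w 1 + w 2 + w 3 + ∑_{k ≥ 10} (√k - √(k - 1)) w k + (3 / 2) (√κ - 3)`
(for ten points `d ≥ w 1 + w 2 + w 3 + 0.1623 w 10 + 0.2434`), to be compared with the walls
`d ≥ w 1 + w 2 + w 3` of the region of the standard classes. The multiplicities one do not count.

(1) ALL classes, effective or not, prime or not, which are carried to a class above its weight by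
quadratic transformations have the expected dimension `h⁰ = max χ 0`.

(2) For every prime divisor `C` (other than the `E i`): `h¹(C) = 0`, or quadratic transformations
carry its class to the class `(d1; w1)`, `d1 ≤ d`, `w1 ≤ w`, of a prime divisor `C1` at other generic
points, which is standard (`w1 i + w1 j + w1 l ≤ d1`), is NOT above its weight, has
`K C1 ≥ 0`, and `0 < h¹(C) ≤ h¹(C1)`.

The case of equal or nearly equal multiplicities is the library result `AllCharacteristics`. Here
there is no condition on the differences of the multiplicities.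

Proof. (a) `h¹(K + L) = 0` on the blow-up of the plane at arbitrary distinct points, in every
characteristic, for an effective class `L` of positive square which is nonnegative on all irreducible
curves (Ramanujam's vanishing theorem; `Pool/Agent/H879/RV`). (b) `L = (d + 3; w + 1)` is nonnegative
on all irreducible curves by Nagata's inequality in every characteristic (library,
`NagataAllCharacteristics`), applied to the sets of the points of multiplicity larger than `t`.
(c) Quadratic transformations at generic points over an arbitrary field (as in the library modules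
`W609.CR` for characteristic zero), and `h¹ = 0` for an irreducible curve with `K C < 0`.
-/

namespace Pool.Agent.Results.MP_0dccba_ag.EveryCharacteristicWeights

open MvPolynomial

variable {k : Type} [Field k] {n : ℕ}

/-- The points `(P i 0 : P i 1 : 1)` are generic: their affine coordinates are algebraically
independent over the prime field `⊥` of `k`. -/
def Generic (P : Fin n → Fin 2 → k) : Prop :=
  AlgebraicIndependent (⊥ : Subfield k) (fun ij : Fin n × Fin 2 => P ij.1 ij.2)

/-- The homogeneous ideal of the point `(a 0 : a 1 : 1)`. -/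
noncomputable def pt (a : Fin 2 → k) : Ideal (MvPolynomial (Fin 3) k) :=
  Ideal.span {X 0 - C (a 0) * X 2, X 1 - C (a 1) * X 2}

/-- `h⁰` of the class `d H - ∑ w i E i`: the dimension of the space of the forms of degree `d` of
multiplicity at least `w i` at `P i`. -/
noncomputable def h0 (P : Fin n → Fin 2 → k) (d : ℕ) (w : Fin n → ℕ) : ℕ :=
  Module.finrank k ↥(homogeneousSubmodule (Fin 3) k d ⊓
    Submodule.restrictScalars k (⨅ i, pt (P i) ^ w i))

/-- The Euler characteristic of the class `d H - ∑ w i E i`. -/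
def chi (d : ℕ) (w : Fin n → ℕ) : ℤ := (d + 2).choose 2 - ∑ i, ((w i + 1).choose 2 : ℤ)

/-- `h¹ = h⁰ - χ` of the class `d H - ∑ w i E i` (its `h²` vanishes since `d ≥ 0`). -/
noncomputable def h1 (P : Fin n → Fin 2 → k) (d : ℕ) (w : Fin n → ℕ) : ℤ := h0 P d w - chi d w

/-- `G = 0` is an irreducible plane curve of degree `d` whose multiplicity at `P i` is exactly
`w i`: its strict transform is a prime divisor of class `d H - ∑ w i E i`. -/
def PrimeDivisor (P : Fin n → Fin 2 → k) (G : MvPolynomial (Fin 3) k) (d : ℕ) (w : Fin n → ℕ) :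
    Prop :=
  G.IsHomogeneous d ∧ Irreducible G ∧ ∀ i, G ∈ pt (P i) ^ w i ∧ G ∉ pt (P i) ^ (w i + 1)

/-- The quadratic transformation based at three points. -/
def Quadratic (a b : ℕ × (Fin n → ℕ)) : Prop :=
  ∃ i j l : Fin n, i ≠ j ∧ i ≠ l ∧ j ≠ l ∧
    b.1 + a.2 i + a.2 j + a.2 l = 2 * a.1 ∧ b.2 i + a.2 j + a.2 l = a.1 ∧
    b.2 j + a.2 i + a.2 l = a.1 ∧ b.2 l + a.2 i + a.2 j = a.1 ∧
    ∀ m, m ≠ i → m ≠ j → m ≠ l → b.2 m = a.2 m

/-- The degree is at least the sum of any three multiplicities. -/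
def Standard (d : ℕ) (w : Fin n → ℕ) : Prop :=
  ∀ i j l : Fin n, i ≠ j → i ≠ l → j ≠ l → w i + w j + w l ≤ d

/-- `N`, `3`, `√N` for `N ≤ 3`, `3 ≤ N ≤ 9`, `9 ≤ N`. -/
noncomputable def rho (N : ℕ) : ℝ := max (min (N : ℝ) 3) √(N : ℝ)

/-- The weight: the sum of the numbers `rho` of the numbers of the multiplicities larger than
`t = 0, 1, 2, …`. -/
noncomputable def weight (w : Fin n → ℕ) : ℝ :=
  ∑ t ∈ Finset.range (Finset.univ.sup w), rho (Finset.univ.filter fun i => t < w i).card

/-- The multiplicities at least two. -/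
def big (w : Fin n → ℕ) : Fin n → ℕ := fun i => if 2 ≤ w i then w i else 0

/-- The class `(d; w)` is above its weight. -/
def Above (d : ℕ) (w : Fin n → ℕ) : Prop :=
  2 * weight (big w) + 3 * √((max 10 (Finset.univ.filter fun i => 2 ≤ w i).card : ℕ) : ℝ) ≤
    2 * d + 9

open Pool.Agent.W609.CR in
theorem mem_pt {G : MvPolynomial (Fin 3) k} {d : ℕ} (hG : G.IsHomogeneous d) (a : Fin 2 → k)
    (m : ℕ) : Van (aff a) m G ↔ G ∈ pt a ^ m :=
  Pool.Agent.W609.CR.t_link k a m G d hG

open Pool.Agent.W609.CR in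
theorem h0_eq (P : Fin n → Fin 2 → k) (d : ℕ) (w : Fin n → ℕ) :
    h0 P d w = Module.finrank k ↥(VS (fun i => aff (P i)) w d) := by
  rw [vs_eq_forms]
  rfl

open Pool.Agent.W609.CR in
theorem prime_iff {P : Fin n → Fin 2 → k} {G : MvPolynomial (Fin 3) k} {d : ℕ} {w : Fin n → ℕ} :
    PrimeDivisor P G d w ↔ Irreducible G ∧ G.IsHomogeneous d ∧ ∀ i, Ord (aff (P i)) (w i) G := by
  constructor
  · rintro ⟨h1, h2, h3⟩
    exact ⟨h2, h1, fun i => ⟨(mem_pt h1 _ _).2 (h3 i).1, fun h => (h3 i).2 ((mem_pt h1 _ _).1 h)⟩⟩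
  · rintro ⟨h1, h2, h3⟩
    exact ⟨h2, h1, fun i => ⟨(mem_pt h2 _ _).1 (h3 i).1, fun h => (h3 i).2 ((mem_pt h2 _ _).2 h)⟩⟩

theorem quad_iff {a b : ℕ × (Fin n → ℕ)} : Quadratic a b ↔ H879.PC.QStep a b := by
  classical
  constructor
  · rintro ⟨i, j, l, hij, hil, hjl, e1, e2, e3, e4, e5⟩
    refine ⟨![i, j, l], ?_, ?_, ?_, ?_, ?_⟩
    · intro x y h
      fin_cases x <;> fin_cases y <;> simp_all [hij.symm, hil.symm, hjl.symm]
    · change a.2 i + a.2 j ≤ a.1
      omega
    · change a.2 i + a.2 l ≤ a.1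
      omega
    · change a.2 j + a.2 l ≤ a.1
      omega
    · refine Prod.ext ?_ (funext fun m => ?_)
      · change b.1 = 2 * a.1 - (a.2 i + a.2 j + a.2 l)
        omega
      · change b.2 m = if m = i then a.1 - (a.2 j + a.2 l) else
          if m = j then a.1 - (a.2 i + a.2 l) else
          if m = l then a.1 - (a.2 i + a.2 j) else a.2 m
        split_ifs with g1 g2 g3
        · rw [g1]
          omega
        · rw [g2]
          omega
        · rw [g3]
          omega
        · exact e5 m g1 g2 g3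
  · rintro ⟨i, hi, h01, h02, h12, rfl⟩
    have n01 : i 0 ≠ i 1 := fun h => absurd (hi h) (by decide)
    have n02 : i 0 ≠ i 2 := fun h => absurd (hi h) (by decide)
    have n12 : i 1 ≠ i 2 := fun h => absurd (hi h) (by decide)
    refine ⟨i 0, i 1, i 2, n01, n02, n12, ?_, ?_, ?_, ?_, fun m g1 g2 g3 => ?_⟩
    · show 2 * a.1 - (a.2 (i 0) + a.2 (i 1) + a.2 (i 2)) + a.2 (i 0) + a.2 (i 1) + a.2 (i 2) =
        2 * a.1
      omega
    · show Pool.Agent.W609.CR.wcr a.1 i a.2 (i 0) + a.2 (i 1) + a.2 (i 2) = a.1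
      unfold Pool.Agent.W609.CR.wcr
      rw [if_pos rfl]
      omega
    · show Pool.Agent.W609.CR.wcr a.1 i a.2 (i 1) + a.2 (i 0) + a.2 (i 2) = a.1
      unfold Pool.Agent.W609.CR.wcr
      rw [if_neg n01.symm, if_pos rfl]
      omega
    · show Pool.Agent.W609.CR.wcr a.1 i a.2 (i 2) + a.2 (i 0) + a.2 (i 1) = a.1
      unfold Pool.Agent.W609.CR.wcr
      rw [if_neg n02.symm, if_neg n12.symm, if_pos rfl]
      omega
    · show Pool.Agent.W609.CR.wcr a.1 i a.2 m = a.2 m
      unfold Pool.Agent.W609.CR.wcr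
      rw [if_neg g1, if_neg g2, if_neg g3]

theorem chain_iff {a b : ℕ × (Fin n → ℕ)} : Relation.ReflTransGen Quadratic a b ↔
    Relation.ReflTransGen H879.PC.QStep a b := by
  have h : (Quadratic : ℕ × (Fin n → ℕ) → ℕ × (Fin n → ℕ) → Prop) = H879.PC.QStep := by
    funext a b
    exact propext quad_iff
  rw [h]

theorem chi_cast (d : ℕ) (w : Fin n → ℕ) :
    chi d w = ((d + 2).choose 2 : ℤ) - ((∑ i, (w i + 1).choose 2 : ℕ) : ℤ) := by
  unfold chi
  push_cast
  rfl

/-- Part (1): all classes. Part (2): prime divisors. Part (3): the weight of decreasing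
multiplicities. -/
theorem result (k : Type) [Field k] [IsAlgClosed k] (n : ℕ) (hn : 10 ≤ n)
    (P : Fin n → Fin 2 → k) (hP : Generic P) :
    (∀ (d : ℕ) (w : Fin n → ℕ) (d' : ℕ) (w' : Fin n → ℕ),
      Relation.ReflTransGen Quadratic (d, w) (d', w') → Above d' w' →
      (h0 P d w : ℤ) = max (chi d w) 0) ∧
    (∀ (G : MvPolynomial (Fin 3) k) (d : ℕ) (w : Fin n → ℕ), PrimeDivisor P G d w →
      h1 P d w = 0 ∨ ∃ (P1 : Fin n → Fin 2 → k) (G1 : MvPolynomial (Fin 3) k) (d1 : ℕ)
        (w1 : Fin n → ℕ), Generic P1 ∧ PrimeDivisor P1 G1 d1 w1 ∧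
        Relation.ReflTransGen Quadratic (d, w) (d1, w1) ∧ d1 ≤ d ∧ (∀ i, w1 i ≤ w i) ∧
        Standard d1 w1 ∧ ¬ Above d1 w1 ∧ 3 * d1 ≤ ∑ i, w1 i ∧
        0 < h1 P d w ∧ h1 P d w ≤ h1 P1 d1 w1) ∧
    ∀ w : Fin n → ℕ, Antitone w →
      weight w = ∑ i : Fin n, (rho ((i : ℕ) + 1) - rho (i : ℕ)) * w i := by
  refine ⟨fun d w d' w' hc hA => ?_, fun G d w hG => ?_, fun w hw => H879.PC.wt_sorted hw⟩
  · have h2 := H879.PC.exp_chain (K := k) (chain_iff.1 hc)
      (fun P1 hP1 => H879.PC.exp_above (by omega) hP1 hA) P hP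
    unfold H879.PC.Exp at h2
    simp only at h2
    rw [h0_eq, h2, chi_cast]
    omega
  · obtain ⟨g1, g2, g3⟩ := prime_iff.1 hG
    have hlow := H879.PC.le_dimV P w d
    rcases H879.PC.prime_all (by omega) hP g1 g2 g3 with h | ⟨P1, d1, w1, G1, r1, r2, r3, r4, r5,
      r6, r7, r8, r9, r10, r11, r12⟩
    · left
      unfold H879.PC.H1 at h
      unfold h1
      rw [h0_eq, chi_cast]
      omega
    · by_cases h : h1 P d w = 0
      · exact Or.inl h
      right
      refine ⟨P1, G1, d1, w1, r1, prime_iff.2 ⟨r3, r4, r5⟩, chain_iff.2 r2, r6, r7, r8, r12, r11,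
        ?_, ?_⟩
      · unfold h1 at h ⊢
        rw [h0_eq, chi_cast] at h ⊢
        omega
      · unfold h1
        rw [h0_eq, h0_eq, chi_cast, chi_cast]
        omega

end Pool.Agent.Results.MP_0dccba_ag.EveryCharacteristicWeights
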