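import Mathlib
import Pool.Agent.H879.Neg.Prime

set_option autoImplicit false

/-!
# Prime divisors with `h¹ > 0` are controlled by their tenth largest multiplicity

Let `X` be the blow-up of the plane over an algebraically closed field of characteristic zero at
`n ≥ 4` generic points `P i` and `C` a prime divisor on `X` of class `d H - ∑ w i E i` with
`h¹ (X, O (C)) ≠ 0`. `NineAbove b w`: at most nine of the multiplicities `w i` are larger than `b`, so
that the tenth largest multiplicity is at most `b`; the NINE largest ones are arbitrary.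

(1) If at most nine of the `w i` are larger than `b`, then `h¹ (X, O (C)) < 10 ^ 39 (b + 1) ^ 16`: a bound
by the tenth multiplicity alone, whatever the degree, the nine largest multiplicities and the number of
the points are.

(2) Quadratic transformations carry the class of `C` to the class `(d1; w1)`, `d1 ≤ d`, `w1 ≤ w`, of a prime
divisor `C1` at other generic points, with the same `h⁰` and `h¹` and with `K C1 ≥ 0`, which is standard
(`w1 i + w1 j + w1 l ≤ d1`), and for every `b` such that at most nine of the `w1 i` are larger than `b`: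
`d1 < 10 ^ 31 (b + 1) ^ 14`; the nine large multiplicities nearly exhaust the degree,
`d1 ^ 2 - ∑_I (w1 i) ^ 2 < 6 * 10 ^ 7 (b + 1) ^ 2 (d1 + b + 2)`; and the degree and the positive
multiplicities `w1 i` belong to a finite set `S b` which does not depend on the number of the points and
on the field.

(3) For every set `I` of at most nine indices the virtual dimension of
`L = (d1 + 3) H - ∑_{w1 i ≥ 2} (w1 i + 1) E_i` is negative, or
`3 (w1 i + 1) ^ 2 > 7 (d1 ^ 2 - ∑_{w1 j ≥ 2} (w1 j) ^ 2)` for some `i ∉ I` with `w1 i ≥ 2`.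

(4) `(d1; w1)` has no `Margin`: at no scale `μ` do the multiplicities larger than `μ` leave room in the
positive cone, up to a bounded change of the degree and a seventh of the square of the tenth
multiplicity.
-/

namespace Pool.Agent.Results.MP_0dccba_ag.TenthMultiplicity

open MvPolynomial Pool.Agent.TH167.SHDefs

/-- The degree is at least the sum of any three multiplicities. -/
def Standard {n : ℕ} (d : ℕ) (w : Fin n → ℕ) : Prop :=
  ∀ i j l : Fin n, i ≠ j → i ≠ l → j ≠ l → w i + w j + w l ≤ d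

/-- At most nine of the multiplicities are larger than `b`. -/
def NineAbove {n : ℕ} (b : ℕ) (w : Fin n → ℕ) : Prop :=
  (Finset.univ.filter fun i => b < w i).card ≤ 9

/-- The degree and the multiset of the positive multiplicities. -/
def type {n : ℕ} (d : ℕ) (w : Fin n → ℕ) : ℕ × Multiset ℕ :=
  (d, (Finset.univ.val.map w).filter (fun x => x ≠ 0))

/-- The multiplicities larger than `μ` (the others are replaced by zero). -/
def large {n : ℕ} (w : Fin n → ℕ) (μ : ℕ) : Fin n → ℕ := fun i => if μ < w i then w i else 0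

/-- The self-intersection of the class `D H - ∑ v i E i`. -/
def self {n : ℕ} (D : ℕ) (v : Fin n → ℕ) : ℝ := (D : ℝ) ^ 2 - ∑ i, (v i : ℝ) ^ 2

/-- The sum of the squares of the `v j < v i` with `j ∉ S`. -/
noncomputable def below {n : ℕ} (S : Finset (Fin n)) (v : Fin n → ℕ) (i : Fin n) : ℝ :=
  ∑ j, if j ∉ S ∧ v j < v i then (v j : ℝ) ^ 2 else 0

/-- The sum of the squares of the `v j ≥ v i` with `j ∉ S`. -/
noncomputable def atLeast {n : ℕ} (S : Finset (Fin n)) (v : Fin n → ℕ) (i : Fin n) : ℝ :=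
  ∑ j, if j ∉ S ∧ v i ≤ v j then (v j : ℝ) ^ 2 else 0

/-- The condition on the multiplicities `v i` outside of a set `S` of at most nine indices. -/
def Tail {n : ℕ} (S : Finset (Fin n)) (D : ℕ) (v : Fin n → ℕ) : Prop :=
  S.card ≤ 9 ∧ ∀ i, i ∉ S → (v i : ℝ) ^ 2 ≤ 7 * self D v ∨
    (v i : ℝ) ^ 2 ≤ 4 * (self D v + below S v i) ∨
    (S.card = 9 ∧ 2 * (v i : ℝ) * atLeast S v i ≤ D * (self D v + below S v i))

/-- The multiplicities larger than `μ` leave a margin `T`. -/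
def Margin {n : ℕ} (d : ℕ) (w : Fin n → ℕ) : Prop :=
  ∃ (μ T D : ℕ) (S : Finset (Fin n)), d = D + T ∧ 2 ^ 43 * (μ + 1) ^ 11 ≤ T ∧
    2 ^ 14 * (μ + 1) ^ 3 * ∑ i, large w μ i ≤ T * D ∧
    Standard D (large w μ) ∧ ∑ i, large w μ i ^ 2 ≤ D ^ 2 ∧ Tail S D (large w μ)

theorem tail_iff {n : ℕ} {S : Finset (Fin n)} {D : ℕ} {v : Fin n → ℕ} (h : Tail S D v) :
    H879.RV.Tail S (D : ℝ) (fun i => (v i : ℝ)) := by
  refine ⟨h.1, fun i hi => ?_⟩
  have e1 : below S v i = Pool.Agent.K4H28.TC.below S (fun i => (v i : ℝ)) i := by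
    unfold below Pool.Agent.K4H28.TC.below
    refine Finset.sum_congr rfl fun j _ => ?_
    by_cases hj : j ∉ S ∧ v j < v i
    · have h2 : (v j : ℝ) < v i := by exact_mod_cast hj.2
      rw [if_pos hj, if_pos ⟨hj.1, h2⟩]
    · have h2 : ¬ (j ∉ S ∧ (v j : ℝ) < v i) := fun h' => hj ⟨h'.1, by
        have h3 := h'.2
        exact_mod_cast h3⟩
      rw [if_neg hj, if_neg h2]
  have e2 : atLeast S v i = Pool.Agent.K4H28.TC.above S (fun i => (v i : ℝ)) i := by
    unfold atLeast Pool.Agent.K4H28.TC.above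
    refine Finset.sum_congr rfl fun j _ => ?_
    by_cases hj : j ∉ S ∧ v i ≤ v j
    · have h2 : (v i : ℝ) ≤ v j := by exact_mod_cast hj.2
      rw [if_pos hj, if_pos ⟨hj.1, h2⟩]
    · have h2 : ¬ (j ∉ S ∧ (v i : ℝ) ≤ v j) := fun h' => hj ⟨h'.1, by
        have h3 := h'.2
        exact_mod_cast h3⟩
      rw [if_neg hj, if_neg h2]
  have h1 := h.2 i hi
  rw [e1, e2] at h1
  exact h1

theorem margin_iff {n d : ℕ} {w : Fin n → ℕ} (h : Margin d w) : H879.RV.Margin d w := by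
  obtain ⟨μ, T, D, S, hd, hT1, hT2, hstd, hD0, hS⟩ := h
  have e43 : (2 : ℕ) ^ 43 = 8796093022208 := by norm_num
  have e14 : (2 : ℕ) ^ 14 = 16384 := by norm_num
  rw [e43] at hT1
  rw [e14] at hT2
  exact ⟨μ, T, D, S, hd, hT1, hT2, hstd, hD0, tail_iff hS⟩

/-- The points `(P i 0 : P i 1 : 1)` are generic: their affine coordinates are algebraically
independent over the prime field `ℚ`. -/
def Generic {k : Type} [Field k] [CharZero k] {n : ℕ} (P : Fin n → Fin 2 → k) : Prop :=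
  AlgebraicIndependent ℚ (fun ij : Fin n × Fin 2 => P ij.1 ij.2)

/-- `h⁰` of the class `d H - ∑ w i E i`: the dimension of the space of the forms of degree `d` of
multiplicity at least `w i` at `P i`. -/
noncomputable def h0 {k : Type} [Field k] {n : ℕ} (P : Fin n → Fin 2 → k) (d : ℕ)
    (w : Fin n → ℕ) : ℕ := Module.finrank k ↥(sys P d w)

/-- The Euler characteristic of the class `d H - ∑ w i E i`. -/
def chi {n : ℕ} (d : ℕ) (w : Fin n → ℕ) : ℤ :=
  ((d + 2).choose 2 : ℤ) - ∑ i, ((w i + 1).choose 2 : ℤ)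

/-- `h¹ = h⁰ - χ` of the class `d H - ∑ w i E i` (its `h²` vanishes since `d ≥ 0`). -/
noncomputable def h1 {k : Type} [Field k] {n : ℕ} (P : Fin n → Fin 2 → k) (d : ℕ)
    (w : Fin n → ℕ) : ℤ := h0 P d w - chi d w

/-- The numerical estimate. -/
theorem numeric {V x h : ℤ} {d b m : ℕ}
    (h1 : d < 10000000000000000000000000000000 * (b + 1) ^ 14)
    (h2 : V < 60000000 * (((b : ℤ) + 1) ^ 2 * (d + b + 2))) (h3 : x ≤ V + 2 * b)
    (h4 : m ≤ (d + b) * b) (h5 : 2 * h = 2 * (m : ℤ) + x - 2) :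
    h < 10 ^ 39 * ((b : ℤ) + 1) ^ 16 := by
  obtain ⟨y, hy⟩ : ∃ y : ℤ, y = (b : ℤ) + 1 := ⟨_, rfl⟩
  have hb : (b : ℤ) = y - 1 := by omega
  have hy1 : 1 ≤ y := by omega
  have h1' : (d : ℤ) < 10000000000000000000000000000000 * y ^ 14 := by
    rw [hy]
    exact_mod_cast h1
  have y2 : y ≤ y ^ 2 := le_self_pow₀ hy1 (by norm_num)
  have y14 : 1 ≤ y ^ 14 := one_le_pow₀ hy1
  have p1 : y ≤ y ^ 14 := le_self_pow₀ hy1 (by norm_num)
  obtain ⟨D, hD⟩ : ∃ D : ℤ, D = (d : ℤ) + b + 2 := ⟨_, rfl⟩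
  have hD0 : (d : ℤ) + b ≤ D := by omega
  have hD1 : 2 ≤ D := by omega
  have hD2 : D ≤ 10000000000000000000000000000003 * y ^ 14 := by
    rw [hD, hb]
    linarith
  have h6 : y ^ 2 * D ≤ y ^ 2 * (10000000000000000000000000000003 * y ^ 14) :=
    mul_le_mul_of_nonneg_left hD2 (by linarith)
  have e1 : y ^ 2 * (10000000000000000000000000000003 * y ^ 14) =
      10000000000000000000000000000003 * y ^ 16 := by ring
  have h7 : (m : ℤ) ≤ y ^ 2 * D := by
    have h8 : (m : ℤ) ≤ ((d : ℤ) + b) * b := by exact_mod_cast h4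
    have h9 : ((d : ℤ) + b) * b ≤ D * y ^ 2 :=
      mul_le_mul hD0 (by linarith) (by omega) (by omega)
    linarith
  have h10 : 2 * (b : ℤ) ≤ y ^ 2 * D := by
    have h11 : y ^ 2 * 2 ≤ y ^ 2 * D := mul_le_mul_of_nonneg_left hD1 (by linarith)
    linarith
  rw [← hy] at h2 ⊢
  rw [← hD] at h2
  rw [e1] at h6
  have p16 : 1 ≤ y ^ 16 := one_le_pow₀ hy1
  norm_num
  linarith

open Pool.Agent.TH167 in
/-- Prime divisors with `h¹ > 0` are controlled by their tenth multiplicity. -/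
theorem result : ∃ S : ℕ → Finset (ℕ × Multiset ℕ),
    ∀ (k : Type) [Field k] [IsAlgClosed k] [CharZero k] (n : ℕ), 4 ≤ n →
    ∀ P : Fin n → Fin 2 → k, Generic P →
      ∀ (C : MvPolynomial (Fin 3) k) (d : ℕ) (w : Fin n → ℕ), Curve P C d w → h1 P d w ≠ 0 →
        -- (1)
        0 < h1 P d w ∧
        (∀ b : ℕ, NineAbove b w → h1 P d w < 10 ^ 39 * ((b : ℤ) + 1) ^ 16) ∧
        -- (2)
        ∃ (P1 : Fin n → Fin 2 → k) (C1 : MvPolynomial (Fin 3) k) (d1 : ℕ) (w1 : Fin n → ℕ),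
          Generic P1 ∧ Curve P1 C1 d1 w1 ∧
          Relation.ReflTransGen Quadratic (d, w) (d1, w1) ∧ d1 ≤ d ∧ (∀ i, w1 i ≤ w i) ∧
          h0 P1 d1 w1 = h0 P d w ∧ h1 P1 d1 w1 = h1 P d w ∧ Standard d1 w1 ∧
          0 ≤ interK d1 w1 ∧
          (∀ b : ℕ, NineAbove b w1 → d1 < 10 ^ 31 * (b + 1) ^ 14 ∧ type d1 w1 ∈ S b ∧
            ∀ I : Finset (Fin n), I.card ≤ 9 → (∀ i, i ∉ I → w1 i ≤ b) →
              (d1 : ℤ) ^ 2 - ∑ i ∈ I, (w1 i : ℤ) ^ 2 <
                6 * 10 ^ 7 * ((b : ℤ) + 1) ^ 2 * (d1 + b + 2)) ∧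
          -- (3)
          (∀ I : Finset (Fin n), I.card ≤ 9 →
            (d1 + 3) * (d1 + 6) < ∑ i, (if 2 ≤ w1 i then (w1 i + 1) * (w1 i + 2) else 0) ∨
            ∃ i, i ∉ I ∧ 2 ≤ w1 i ∧
              7 * d1 ^ 2 < 3 * (w1 i + 1) ^ 2 + 7 * ∑ j, (if 2 ≤ w1 j then w1 j ^ 2 else 0)) ∧
          -- (4)
          ¬ Margin d1 w1 := by
  refine ⟨fun b => (H879.Star.finite_rem b).toFinset, fun k _ _ _ n hn => ?_⟩
  obtain ⟨r, rfl⟩ : ∃ r, n = r + 4 := ⟨n - 4, by omega⟩
  intro P hP C d w hC hne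
  obtain ⟨g1, g2, g3⟩ := SH.curve_iff.1 hC
  have hh0 : ∀ (Q : Fin (r + 4) → Fin 2 → k) (e : ℕ) (u : Fin (r + 4) → ℕ), h0 Q e u =
      Module.finrank k ↥(Pool.Agent.W609.CR.VS (fun j => Pool.Agent.W609.CR.aff (Q j)) u e) := by
    intro Q e u
    unfold h0
    rw [SH.sys_eq]
  have hchi : ∀ (e : ℕ) (u : Fin (r + 4) → ℕ),
      chi e u = ((e + 2).choose 2 : ℤ) - ((∑ i, (u i + 1).choose 2 : ℕ) : ℤ) := by
    intro e u
    unfold chi
    push_cast
    rfl
  have hchi' : ∀ (e : ℕ) (u : Fin (r + 4) → ℕ), chi e u = SH.chi e u := fun e u => rfl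
  have hH1 : ¬ H879.PC.H1 P w d := by
    intro h
    apply hne
    unfold H879.PC.H1 at h
    unfold h1
    rw [hh0, hchi]
    omega
  have hpos : 0 < h1 P d w := by
    have h := H879.PC.le_dimV P w d
    unfold h1 at hne ⊢
    rw [hh0, hchi] at hne ⊢
    omega
  obtain ⟨P1, d1, w1, C1, hst⟩ := H879.Neg.prime_std hP g1 g2 g3 hH1
  have hG : ¬ Pool.Agent.Q310.FP.GE d1 w1 := hst.spec
  have hstd : Pool.Agent.Q310.FP.Standard d1 w1 := hst.std
  have hX : ∀ j, 1 ≤ w1 j → ∑ i, w1 i ^ 2 ≤ d1 ^ 2 + w1 j := fun j hj =>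
    H879.Pos.self_int hst.alg hst.irr hst.hom hst.ord hj
  have key : ∀ (b : ℕ) (I : Finset (Fin (r + 4))), I.card ≤ 9 → (∀ i, i ∉ I → w1 i ≤ b) →
      _ := fun b I hI hb => H879.Neg.bounds_all hn hstd hI hb hG hX
  have hset : ∀ (b : ℕ) (i : Fin (r + 4)), i ∉ (Finset.univ.filter fun i => b < w1 i) →
      w1 i ≤ b := by
    intro b i hi
    rw [Finset.mem_filter, not_and] at hi
    have := hi (Finset.mem_univ i)
    omega
  have e0 : h0 P1 d1 w1 = h0 P d w := by
    rw [hh0, hh0]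
    exact hst.dim
  have e1 : h1 P1 d1 w1 = h1 P d w := by
    unfold h1
    rw [e0, hchi', hchi', hst.chi]
  refine ⟨hpos, fun b hb => ?_, P1, C1, d1, w1, hst.alg,
    SH.curve_iff.2 ⟨hst.irr, hst.hom, hst.ord⟩, hst.chain, hst.deg, hst.mult, e0, e1, hst.std,
    ?_, fun b hb => ⟨?_, ?_, fun I hI hIb => ?_⟩, fun I hI => ?_,
    fun hM => hG (H879.RV.ge_margin hn (margin_iff hM))⟩
  · have h9 : (Finset.univ.filter fun i => b < w1 i).card ≤ 9 := by
      refine le_trans (Finset.card_le_card fun i hi => ?_) hb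
      rw [Finset.mem_filter] at hi ⊢
      exact ⟨hi.1, hi.2.trans_le (hst.mult i)⟩
    obtain ⟨k1, k2, k3⟩ := key b _ h9 (hset b)
    have k4 := H879.Neg.dim_le hn hst.alg hstd h9 (hset b) hG
    refine numeric k1 k2 k3 k4 ?_
    rw [← e1]
    unfold h1
    rw [hh0, hchi']
    have h7 := SH.two_chi d1 w1
    rw [SH.inter_eq, SH.interK_eq]
    omega
  · have h8 := hst.can
    unfold interK
    have h9 : ((3 * d1 : ℕ) : ℤ) ≤ ((∑ i, w1 i : ℕ) : ℤ) := by exact_mod_cast h8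
    push_cast at h9
    linarith
  · have k1 := (key b _ hb (hset b)).1
    calc d1 < _ := k1
      _ = 10 ^ 31 * (b + 1) ^ 14 := by norm_num
  · rw [Set.Finite.mem_toFinset]
    exact ⟨r + 4, w1, hn, rfl, hstd, hb, hG⟩
  · have k2 := (key b I hI hIb).2.1
    calc _ < _ := k2
      _ = 6 * 10 ^ 7 * ((b : ℤ) + 1) ^ 2 * (d1 + b + 2) := by ring
  · by_contra hcon
    push Not at hcon
    refine hG (H879.RV.ge_clean hn hstd hI hcon.1 fun i hi h2 => ?_)
    exact hcon.2 i hi h2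

end Pool.Agent.Results.MP_0dccba_ag.TenthMultiplicity
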